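import Pool.Agent.V1197.AS.Sums

set_option autoImplicit false

/-! # Absolutely convergent series, achievement sets with empty interior -/

namespace Pool.Agent.V1197.AS

open Set Filter Topology

/-! ### A local isomorphism between neighbourhoods of `0` and of `b` -/

structure Loc (X : Set ℝ) (b γ η : ℝ) : Prop where
  pos : 0 < η
  le : η ≤ γ
  gap : ∀ z ∈ X, b - γ < z → b ≤ z
  nonneg : ∀ z ∈ X, 0 ≤ z
  down : ∀ z ∈ X, b ≤ z → z < b + η → z - b ∈ X
  up : ∀ z ∈ X, z < η → b + z ∈ X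

theorem Loc.nd_up {X : Set ℝ} {b γ η : ℝ} (h : Loc X b γ η) {T : Set ℝ} (hT : ND X T) :
    ND X {z | z - b ∈ T ∧ b ≤ z ∧ z < b + η} := by
  intro V hV hne
  by_cases hcase : ∃ v ∈ V ∩ X, b ≤ v ∧ v < b + η
  · obtain ⟨v, hv, hv1, hv2⟩ := hcase
    set V₁ : Set ℝ := (fun z => z + b) ⁻¹' (V ∩ Ioo (b - γ) (b + η)) with hV₁
    have hc : Continuous fun z : ℝ => z + b := by fun_prop
    have hc' : Continuous fun z : ℝ => z - b := by fun_prop
    have hV₁o : IsOpen V₁ := (hV.inter isOpen_Ioo).preimage hc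
    have hγ : 0 < γ := lt_of_lt_of_le h.pos h.le
    obtain ⟨V', h1, h2, ⟨w, hw⟩, h4⟩ := hT V₁ hV₁o ⟨v - b, by
      simp only [hV₁, mem_preimage, sub_add_cancel]
      exact ⟨hv.1, by linarith, hv2⟩, h.down v hv.2 hv1 hv2⟩
    refine ⟨(fun z => z - b) ⁻¹' V', h1.preimage hc', ?_, ?_, ?_⟩
    · intro z hz
      have := (h2 hz).1
      simpa using this
    · have h5 := (h2 hw.1).2
      simp only [mem_Ioo] at h5
      refine ⟨b + w, by simpa using hw.1, h.up w hw.2 (by linarith)⟩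
    · rw [eq_empty_iff_forall_notMem] at h4 ⊢
      rintro z ⟨⟨hz1, hz2⟩, hz3, hz4, hz5⟩
      exact h4 (z - b) ⟨⟨hz1, h.down z hz2 hz4 hz5⟩, hz3⟩
  · refine ⟨V, hV, Subset.rfl, hne, ?_⟩
    rw [eq_empty_iff_forall_notMem]
    rintro z ⟨hz1, _, hz2, hz3⟩
    exact hcase ⟨z, hz1, hz2, hz3⟩

theorem Loc.nd_down {X : Set ℝ} {b γ η : ℝ} (h : Loc X b γ η) {T : Set ℝ} (hT : ND X T) :
    ND X {z | b + z ∈ T ∧ 0 ≤ z ∧ z < η} := by
  intro V hV hne
  by_cases hcase : ∃ v ∈ V ∩ X, 0 ≤ v ∧ v < η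
  · obtain ⟨v, hv, hv1, hv2⟩ := hcase
    have hc : Continuous fun z : ℝ => b + z := by fun_prop
    have hc' : Continuous fun z : ℝ => z - b := by fun_prop
    set V₁ : Set ℝ := (fun z => z - b) ⁻¹' V ∩ Ioo (b - γ) (b + η) with hV₁
    have hV₁o : IsOpen V₁ := (hV.preimage hc').inter isOpen_Ioo
    have hγ : 0 < γ := lt_of_lt_of_le h.pos h.le
    obtain ⟨V', h1, h2, ⟨w, hw⟩, h4⟩ := hT V₁ hV₁o ⟨b + v, by
      refine ⟨?_, by linarith, by linarith⟩
      simp only [mem_preimage, add_sub_cancel_left]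
      exact hv.1, h.up v hv.2 hv2⟩
    refine ⟨(fun z => b + z) ⁻¹' V', h1.preimage hc, ?_, ?_, ?_⟩
    · intro z hz
      have := (h2 hz).1
      simpa using this
    · have h5 := (h2 hw.1).2
      simp only [mem_Ioo] at h5
      have h6 := h.gap w hw.2 h5.1
      refine ⟨w - b, ?_, h.down w hw.2 h6 h5.2⟩
      simp only [mem_preimage]
      have : b + (w - b) = w := by ring
      rw [this]
      exact hw.1
    · rw [eq_empty_iff_forall_notMem] at h4 ⊢
      rintro z ⟨⟨hz1, hz2⟩, hz3, hz4, hz5⟩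
      exact h4 (b + z) ⟨⟨hz1, h.up z hz2 hz5⟩, hz3⟩
  · refine ⟨V, hV, Subset.rfl, hne, ?_⟩
    rw [eq_empty_iff_forall_notMem]
    rintro z ⟨hz1, _, hz2, hz3⟩
    exact hcase ⟨z, hz1, hz2, hz3⟩

theorem Loc.rm_up {X : Set ℝ} {b γ η : ℝ} (h : Loc X b γ η) {T : Set ℝ} (hT : RM X T) :
    RM X {z | z - b ∈ T ∧ b ≤ z ∧ z < b + η} := by
  obtain ⟨f, h1, h2⟩ := hT
  refine ⟨fun n => {z | z - b ∈ f n ∧ b ≤ z ∧ z < b + η}, fun n => h.nd_up (h1 n), ?_⟩
  rintro z ⟨⟨hz1, hz2, hz3⟩, hz4⟩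
  obtain ⟨n, hn⟩ := mem_iUnion.1 (h2 ⟨hz1, h.down z hz4 hz2 hz3⟩)
  exact mem_iUnion.2 ⟨n, hn, hz2, hz3⟩

theorem Loc.rm_down {X : Set ℝ} {b γ η : ℝ} (h : Loc X b γ η) {T : Set ℝ} (hT : RM X T) :
    RM X {z | b + z ∈ T ∧ 0 ≤ z ∧ z < η} := by
  obtain ⟨f, h1, h2⟩ := hT
  refine ⟨fun n => {z | b + z ∈ f n ∧ 0 ≤ z ∧ z < η}, fun n => h.nd_down (h1 n), ?_⟩
  rintro z ⟨⟨hz1, hz2, hz3⟩, hz4⟩
  obtain ⟨n, hn⟩ := mem_iUnion.1 (h2 ⟨hz1, h.up z hz4 hz3⟩)
  exact mem_iUnion.2 ⟨n, hn, hz2, hz3⟩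

/-! ### Summable series of non-negative terms -/

section nonneg

variable {y : ℕ → ℝ} (hy : ∀ i, 0 ≤ y i) (hs : Summable y)

include hy hs

theorem summable_ind (A : Set ℕ) : Summable (A.indicator y) := hs.indicator A

theorem subSum_tsum (A : Set ℕ) : SubSum y A (∑' i, A.indicator y i) :=
  (summable_ind hy hs A).hasSum.tendsto_sum_nat

theorem subSum_iff (A : Set ℕ) (s : ℝ) : SubSum y A s ↔ s = ∑' i, A.indicator y i :=
  ⟨fun h => tendsto_nhds_unique h (subSum_tsum hy hs A), fun h => h ▸ subSum_tsum hy hs A⟩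

theorem tsum_mem (A : Set ℕ) : (∑' i, A.indicator y i) ∈ AS univ y :=
  ⟨A, mem_univ _, subSum_tsum hy hs A⟩

theorem isClosed_AS : IsClosed (AS univ y) := by
  have hcont : Continuous fun a : ℕ → Bool => ∑' i, (if a i = true then y i else 0) := by
    refine continuous_tsum (u := y) (fun i => ?_) hs (fun i a => ?_)
    · have h1 : Continuous fun b : Bool => (if b = true then y i else 0) := continuous_of_discreteTopology
      exact h1.comp (continuous_apply i)
    · split_ifs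
      · rw [Real.norm_eq_abs, abs_of_nonneg (hy i)]
      · rw [norm_zero]; exact hy i
  have hrange : AS univ y = range fun a : ℕ → Bool => ∑' i, (if a i = true then y i else 0) := by
    classical
    ext s
    constructor
    · rintro ⟨A, _, hA⟩
      rw [subSum_iff hy hs] at hA
      refine ⟨fun i => decide (i ∈ A), ?_⟩
      rw [hA]
      refine tsum_congr fun i => ?_
      by_cases h : i ∈ A <;> simp [h]
    · rintro ⟨a, rfl⟩
      refine ⟨{i | a i = true}, mem_univ _, ?_⟩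
      rw [subSum_iff hy hs]
      refine tsum_congr fun i => ?_
      by_cases h : a i = true
      · rw [if_pos h, indicator_of_mem (show i ∈ {i | a i = true} from h)]
      · rw [if_neg h, indicator_of_notMem (show i ∉ {i | a i = true} from h)]
  rw [hrange]
  exact (isCompact_range hcont).isClosed

theorem AS_nonneg {s : ℝ} (h : s ∈ AS univ y) : 0 ≤ s := by
  obtain ⟨A, _, hA⟩ := h
  rw [subSum_iff hy hs] at hA
  rw [hA]
  exact tsum_nonneg fun i => indicator_nonneg (fun i _ => hy i) i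

theorem tsum_disj {A B : Set ℕ} (h : Disjoint A B) :
    ∑' i, (A ∪ B).indicator y i = (∑' i, A.indicator y i) + ∑' i, B.indicator y i := by
  rw [← (summable_ind hy hs A).tsum_add (summable_ind hy hs B)]
  refine tsum_congr fun i => ?_
  rw [indicator_union_of_disjoint h]

theorem tsum_split (A G : Set ℕ) :
    ∑' i, A.indicator y i = (∑' i, (A ∩ G).indicator y i) + ∑' i, (A \ G).indicator y i := by
  have hd : Disjoint (A ∩ G) (A \ G) := by
    rw [Set.disjoint_left]
    rintro i ⟨_, h1⟩ ⟨_, h2⟩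
    exact h2 h1
  have hu : A ∩ G ∪ A \ G = A := by
    ext i
    by_cases h : i ∈ G <;> simp [h]
  rw [← tsum_disj hy hs hd, hu]

theorem Ps_eq_tsum (A : Set ℕ) (k : ℕ) : Ps y A k = ∑' i, (A ∩ {i | i < k}).indicator y i := by
  rw [tsum_eq_sum (s := Finset.range k)]
  · refine Finset.sum_congr rfl fun i hi => ?_
    have hi' : i < k := Finset.mem_range.1 hi
    by_cases hA : i ∈ A
    · rw [indicator_of_mem hA, indicator_of_mem (show i ∈ A ∩ {i | i < k} from ⟨hA, hi'⟩)]
    · rw [indicator_of_notMem hA, indicator_of_notMem fun h => hA h.1]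
  · intro i hi
    rw [indicator_of_notMem]
    rintro ⟨_, h⟩
    exact hi (Finset.mem_range.2 h)

/-- the small terms can be removed without jumping over a gap -/
theorem le_big {b γ : ℝ} (hgap : ∀ z ∈ AS univ y, b - γ < z → b ≤ z) {A : Set ℕ}
    (hA : b ≤ ∑' i, A.indicator y i) : b ≤ ∑' i, (A ∩ {i | γ ≤ y i}).indicator y i := by
  set G : Set ℕ := {i | γ ≤ y i} with hG
  by_contra hcon
  push Not at hcon
  have hmem : ∀ k, (∑' i, (A ∩ G).indicator y i) + Ps y (A \ G) k ∈ AS univ y := by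
    intro k
    rw [Ps_eq_tsum hy hs, ← tsum_disj hy hs]
    · exact tsum_mem hy hs _
    · rw [Set.disjoint_left]
      rintro i ⟨_, h1⟩ ⟨⟨_, h2⟩, _⟩
      exact h2 h1
  have hstep : ∀ k, (∑' i, (A ∩ G).indicator y i) + Ps y (A \ G) k ≤ b - γ := by
    intro k
    induction k with
    | zero =>
      have h0 : Ps y (A \ G) 0 = 0 := by simp [Ps]
      rw [h0, add_zero]
      by_contra h
      push Not at h
      have := hgap _ (tsum_mem hy hs _) h
      linarith
    | succ k ih =>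
      by_contra h
      push Not at h
      have h1 := hgap _ (hmem (k + 1)) h
      rw [Ps_succ] at h1 h
      by_cases hk : k ∈ A \ G
      · rw [indicator_of_mem hk] at h1
        have : y k < γ := not_le.1 hk.2
        linarith
      · rw [indicator_of_notMem hk] at h
        linarith
  have hlim : Tendsto (fun k => (∑' i, (A ∩ G).indicator y i) + Ps y (A \ G) k) atTop
      (𝓝 (∑' i, A.indicator y i)) := by
    rw [tsum_split hy hs A G]
    exact (subSum_tsum hy hs (A \ G)).const_add _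
  have hle := le_of_tendsto' hlim hstep
  have hγ : 0 < γ := by
    by_contra hγ
    push Not at hγ
    have h2 := hstep 0
    have h0 : Ps y (A \ G) 0 = 0 := by simp [Ps]
    rw [h0, add_zero] at h2
    have hAG : A \ G = ∅ := by
      rw [eq_empty_iff_forall_notMem]
      rintro i ⟨_, h3⟩
      exact h3 (hγ.trans (hy i))
    have h4 := tsum_split hy hs A G
    rw [hAG] at h4
    simp only [indicator_empty, tsum_zero, add_zero] at h4
    rw [← h4] at hcon
    linarith
  linarith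

omit hy in
theorem finite_big {γ : ℝ} (hγ : 0 < γ) : {i | γ ≤ y i}.Finite := by
  have h := hs.tendsto_cofinite_zero
  have h2 := h.eventually_lt_const hγ
  refine h2.subset fun i hi => ?_
  have hi' : γ ≤ y i := hi
  exact not_lt.2 hi'

/-- local structure at the right end points of gaps -/
theorem exists_loc {J : Set (Set ℕ)} (hJ : FinInv J) (hint : interior (AS univ y) = ∅)
    {V : Set ℝ} (hV : IsOpen V) (hne : (V ∩ AS univ y).Nonempty) {ε : ℝ} (hε : 0 < ε) :
    ∃ b γ η, Loc (AS univ y) b γ η ∧ η ≤ ε ∧ b ∈ AS univ y ∧ Ico b (b + η) ⊆ V ∧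
      (∀ z ∈ AS J y, b ≤ z → z < b + η → z - b ∈ AS J y) ∧
      (∀ z ∈ AS J y, z < η → b + z ∈ AS J y) := by
  obtain ⟨v, hvV, hvX⟩ := hne
  obtain ⟨ρ, hρ, hρV⟩ := Metric.isOpen_iff.1 hV v hvV
  have hcl := isClosed_AS hy hs
  -- a point outside the set, slightly to the left of `v`
  obtain ⟨u, hu1, hu2, huX⟩ : ∃ u, v - ρ < u ∧ u < v ∧ u ∉ AS univ y := by
    by_contra hcon
    push Not at hcon
    have : (v - ρ / 2) ∈ interior (AS univ y) :=
      mem_interior.2 ⟨Ioo (v - ρ) v, fun z hz => hcon z hz.1 hz.2, isOpen_Ioo,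
        by linarith, by linarith⟩
    rw [hint] at this
    exact this
  set b : ℝ := sInf (AS univ y ∩ Ici u) with hb
  have hbne : (AS univ y ∩ Ici u).Nonempty := ⟨v, hvX, hu2.le⟩
  have hbdd : BddBelow (AS univ y ∩ Ici u) := ⟨u, fun z hz => hz.2⟩
  have hbmem : b ∈ AS univ y ∩ Ici u := (hcl.inter isClosed_Ici).csInf_mem hbne hbdd
  have hbv : b ≤ v := csInf_le hbdd ⟨hvX, hu2.le⟩
  have hub : u < b := lt_of_le_of_ne hbmem.2 fun h => huX (h ▸ hbmem.1)
  set γ : ℝ := b - u with hγ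
  have hγ0 : 0 < γ := by linarith
  have hgap : ∀ z ∈ AS univ y, b - γ < z → b ≤ z := by
    intro z hz hz2
    exact csInf_le hbdd ⟨hz, by
      have : u < z := by linarith
      exact this.le⟩
  -- the finitely many sums of the big terms
  set G : Set ℕ := {i | γ ≤ y i} with hG
  have hGfin : G.Finite := finite_big hs hγ0
  set W : Set ℝ := (fun A : Set ℕ => ∑' i, A.indicator y i) '' {A | A ⊆ G} with hW
  have hWfin : W.Finite := hGfin.finite_subsets.image _
  obtain ⟨δ, hδ, hδW⟩ : ∃ δ > 0, ∀ w ∈ W, b < w → b + δ ≤ w := by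
    have h1 : (W ∩ Ioi b).Finite := hWfin.subset inter_subset_left
    rcases (W ∩ Ioi b).eq_empty_or_nonempty with h2 | h2
    · refine ⟨1, one_pos, fun w hw hbw => ?_⟩
      have : w ∈ W ∩ Ioi b := ⟨hw, hbw⟩
      rw [h2] at this
      exact this.elim
    · obtain ⟨m, hm, hmin⟩ := h1.exists_minimal h2
      refine ⟨m - b, sub_pos.2 hm.2, fun w hw hbw => ?_⟩
      have h3 : m ≤ w := by
        rcases le_total m w with h | h
        · exact h
        · exact hmin ⟨hw, hbw⟩ h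
      linarith
  have hbig : ∀ A : Set ℕ, b ≤ ∑' i, A.indicator y i → ∑' i, A.indicator y i < b + δ →
      ∑' i, (A ∩ G).indicator y i = b := by
    intro A h1 h2
    have h3 := le_big hy hs hgap h1
    have h4 : ∑' i, (A ∩ G).indicator y i ≤ ∑' i, A.indicator y i := by
      rw [tsum_split hy hs A G]
      have : 0 ≤ ∑' i, (A \ G).indicator y i :=
        tsum_nonneg fun i => indicator_nonneg (fun i _ => hy i) i
      linarith
    by_contra hne
    have h5 : b < ∑' i, (A ∩ G).indicator y i := lt_of_le_of_ne h3 (Ne.symm hne)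
    have h6 := hδW _ ⟨A ∩ G, inter_subset_right, rfl⟩ h5
    linarith
  have hsub : ∀ A : Set ℕ, b ≤ ∑' i, A.indicator y i → ∑' i, A.indicator y i < b + δ →
      (∑' i, A.indicator y i) - b = ∑' i, (A \ G).indicator y i := by
    intro A h1 h2
    have := hbig A h1 h2
    have h3 := tsum_split hy hs A G
    linarith
  -- a finite representation of `b`
  obtain ⟨F₀, _, hF₀⟩ := hbmem.1
  rw [subSum_iff hy hs] at hF₀
  have hF := hbig F₀ hF₀.le (by rw [← hF₀]; linarith)
  set F : Set ℕ := F₀ ∩ G with hFdef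
  have hadd : ∀ A : Set ℕ, ∑' i, A.indicator y i < γ → b + ∑' i, A.indicator y i
      = ∑' i, (F ∪ A).indicator y i := by
    intro A hA
    rw [tsum_disj hy hs, hF]
    rw [Set.disjoint_left]
    rintro i ⟨_, h1⟩ h2
    have h3 : y i ≤ ∑' i, A.indicator y i := by
      have h4 := (summable_ind hy hs A).le_tsum i fun j _ => indicator_nonneg (fun i _ => hy i) j
      rwa [indicator_of_mem h2] at h4
    have h5 : γ ≤ y i := h1
    linarith
  set η : ℝ := min (min γ δ) (min ε (v + ρ - b)) with hη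
  have hηpos : 0 < η := by
    refine lt_min (lt_min hγ0 hδ) (lt_min hε ?_)
    linarith
  have hηγ : η ≤ γ := (min_le_left _ _).trans (min_le_left _ _)
  have hηδ : η ≤ δ := (min_le_left _ _).trans (min_le_right _ _)
  have hηε : η ≤ ε := (min_le_right _ _).trans (min_le_left _ _)
  have hηρ : η ≤ v + ρ - b := (min_le_right _ _).trans (min_le_right _ _)
  obtain ⟨Nb, hNb⟩ : ∃ N, ∀ i ∈ G, i < N := by
    obtain ⟨N, hN⟩ := hGfin.bddAbove
    exact ⟨N + 1, fun i hi => Nat.lt_succ_of_le (hN hi)⟩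
  have hdown : ∀ K : Set (Set ℕ), FinInv K → ∀ z ∈ AS K y, b ≤ z → z < b + η → z - b ∈ AS K y := by
    rintro K hK z ⟨A, hA, hAz⟩ h1 h2
    rw [subSum_iff hy hs] at hAz
    rw [hAz] at h1 h2 ⊢
    refine ⟨A \ G, hK A hA _ ⟨Nb, fun i hi => ?_⟩, ?_⟩
    · constructor
      · intro h
        exact ⟨h, fun h3 => by have := hNb i h3; omega⟩
      · exact fun h => h.1
    · rw [subSum_iff hy hs]
      exact hsub A h1 (by linarith)
  have hup : ∀ K : Set (Set ℕ), FinInv K → ∀ z ∈ AS K y, z < η → b + z ∈ AS K y := by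
    rintro K hK z ⟨A, hA, hAz⟩ h1
    rw [subSum_iff hy hs] at hAz
    rw [hAz] at h1 ⊢
    refine ⟨F ∪ A, hK A hA _ ⟨Nb, fun i hi => ?_⟩, ?_⟩
    · constructor
      · exact fun h => Or.inr h
      · rintro (h | h)
        · have := hNb i h.2
          omega
        · exact h
    · rw [subSum_iff hy hs]
      exact hadd A (by linarith)
  refine ⟨b, γ, η, ⟨hηpos, hηγ, hgap, fun z hz => AS_nonneg hy hs hz, hdown univ finInv_univ,
    hup univ finInv_univ⟩, hηε, hbmem.1, ?_, hdown J hJ, hup J hJ⟩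
  intro z hz
  refine hρV ?_
  rw [Metric.mem_ball, Real.dist_eq, abs_lt]
  constructor
  · have := hz.1
    linarith
  · have := hz.2
    linarith

theorem EW_empty {J : Set (Set ℕ)} (hJ : FinInv J) (hint : interior (AS univ y) = ∅) :
    EW (AS univ y) (AS J y) := by
  intro V hV hne hRM
  obtain ⟨b, γ, η, hloc, -, hbX, hbV, hdown, hup⟩ := exists_loc hy hs hJ hint hV hne one_pos
  -- `AS J y` is meager near `0`
  have h0 : RM (AS univ y) (AS J y ∩ Iio η) := by
    refine (hloc.rm_down hRM).mono ?_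
    rintro z ⟨⟨hz1, hz2⟩, hz3⟩
    have hz0 := AS_nonneg hy hs hz3
    have hz2' : z < η := hz2
    exact ⟨⟨hup z hz1 hz2, hbV ⟨by linarith, by linarith⟩⟩, hz0, hz2⟩
  refine RM_of_local fun V' hV' hne' => ?_
  obtain ⟨b', γ', η', hloc', hη', hbX', hbV', hdown', hup'⟩ :=
    exists_loc hy hs hJ hint hV' hne' hloc.pos
  refine ⟨V' ∩ Ioo (b' - γ') (b' + η'), hV'.inter isOpen_Ioo, inter_subset_left, ?_, ?_⟩
  · have h1 := hloc'.pos
    have h2 := hloc'.le
    exact ⟨b', ⟨hbV' ⟨le_rfl, by linarith⟩, by linarith, by linarith⟩, hbX'⟩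
  · refine (hloc'.rm_up h0).mono ?_
    rintro z ⟨⟨hz1, _, hz2, hz3⟩, hz4⟩
    have h5 := hloc'.gap z hz4 hz2
    refine ⟨⟨hdown' z hz1 h5 hz3, ?_⟩, h5, hz3⟩
    change z - b' < η
    linarith

theorem EW_nonneg {J : Set (Set ℕ)} (hJ : FinInv J) : EW (AS univ y) (AS J y) := by
  rcases (interior (AS univ y)).eq_empty_or_nonempty with h | h
  · exact EW_empty hy hs hJ h
  · exact EW_of_dense hJ (dense_interior (isClosed_AS hy hs) h)

end nonneg

end Pool.Agent.V1197.AS
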