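import Mathlib

set_option autoImplicit false

/-! # Sets of reals which are meager relative to a set of reals -/

namespace Pool.Agent.V1197.AS

open Set Filter Topology

/-- `T` is nowhere dense in the subspace `X` -/
def ND (X T : Set ℝ) : Prop :=
  ∀ V, IsOpen V → (V ∩ X).Nonempty → ∃ V', IsOpen V' ∧ V' ⊆ V ∧ (V' ∩ X).Nonempty ∧ V' ∩ X ∩ T = ∅

/-- `T ∩ X` is meager in the subspace `X` -/
def RM (X T : Set ℝ) : Prop := ∃ f : ℕ → Set ℝ, (∀ n, ND X (f n)) ∧ T ∩ X ⊆ ⋃ n, f n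

theorem ND.mono {X T T' : Set ℝ} (h : ND X T) (hs : T' ⊆ T) : ND X T' := by
  intro V hV hVX
  obtain ⟨V', h1, h2, h3, h4⟩ := h V hV hVX
  refine ⟨V', h1, h2, h3, ?_⟩
  rw [eq_empty_iff_forall_notMem] at h4 ⊢
  exact fun x hx => h4 x ⟨hx.1, hs hx.2⟩

theorem RM.mono {X T T' : Set ℝ} (h : RM X T) (hs : T' ∩ X ⊆ T) : RM X T' := by
  obtain ⟨f, h1, h2⟩ := h
  exact ⟨f, h1, fun x hx => h2 ⟨hs hx, hx.2⟩⟩

theorem ND_empty (X : Set ℝ) : ND X ∅ := fun V hV hVX => ⟨V, hV, Subset.rfl, hVX, by simp⟩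

theorem RM_of_ND {X T : Set ℝ} (h : ND X T) : RM X T :=
  ⟨fun _ => T, fun _ => h, fun _ hx => mem_iUnion.2 ⟨0, hx.1⟩⟩

theorem RM_iUnion {X : Set ℝ} {ι : Type*} [Countable ι] {T : ι → Set ℝ} (h : ∀ i, RM X (T i)) :
    RM X (⋃ i, T i) := by
  rcases isEmpty_or_nonempty ι with hι | hι
  · refine ⟨fun _ => ∅, fun _ => ND_empty X, fun x hx => ?_⟩
    obtain ⟨i, _⟩ := mem_iUnion.1 hx.1
    exact (hι.false i).elim
  · choose f hf1 hf2 using h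
    obtain ⟨e, he⟩ := exists_surjective_nat (ι × ℕ)
    refine ⟨fun n => f (e n).1 (e n).2, fun n => hf1 _ _, fun x hx => ?_⟩
    obtain ⟨i, hi⟩ := mem_iUnion.1 hx.1
    obtain ⟨k, hk⟩ := mem_iUnion.1 (hf2 i ⟨hi, hx.2⟩)
    obtain ⟨n, hn⟩ := he (i, k)
    refine mem_iUnion.2 ⟨n, ?_⟩
    rw [hn]
    exact hk

theorem RM_union {X T T' : Set ℝ} (h : RM X T) (h' : RM X T') : RM X (T ∪ T') := by
  have h1 : RM X (⋃ b : Bool, if b then T else T') := by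
    refine RM_iUnion fun b => ?_
    cases b
    · simpa using h'
    · simpa using h
  refine h1.mono fun x hx => ?_
  rcases hx.1 with h2 | h2
  · exact mem_iUnion.2 ⟨true, by simpa using h2⟩
  · exact mem_iUnion.2 ⟨false, by simpa using h2⟩

/-- the Banach category theorem -/
theorem RM_of_local {X T : Set ℝ} (h : ∀ V, IsOpen V → (V ∩ X).Nonempty → ∃ V', IsOpen V' ∧ V' ⊆ V ∧
    (V' ∩ X).Nonempty ∧ RM X (T ∩ V')) : RM X T := by
  set 𝓑 : Set (Set ℝ) := {B | B ∈ TopologicalSpace.countableBasis ℝ ∧ RM X (T ∩ B)} with h𝓑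
  have hc : Countable 𝓑 :=
    ((TopologicalSpace.countable_countableBasis ℝ).mono fun B hB => hB.1).to_subtype
  set G : Set ℝ := ⋃ B : 𝓑, (B : Set ℝ) with hG
  have h1 : RM X (⋃ B : 𝓑, T ∩ (B : Set ℝ)) := RM_iUnion fun B => B.2.2
  have h2 : ND X (T \ G) := by
    intro V hV hVX
    obtain ⟨V', hV', hsub, ⟨x, hx⟩, hRM⟩ := h V hV hVX
    obtain ⟨B, hB, hxB, hBV⟩ :=
      (TopologicalSpace.isBasis_countableBasis ℝ).exists_subset_of_mem_open hx.1 hV'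
    have hB𝓑 : B ∈ 𝓑 := ⟨hB, hRM.mono fun y hy => ⟨hy.1.1, hBV hy.1.2⟩⟩
    refine ⟨B, (TopologicalSpace.isBasis_countableBasis ℝ).isOpen hB, hBV.trans hsub,
      ⟨x, hxB, hx.2⟩, ?_⟩
    rw [eq_empty_iff_forall_notMem]
    rintro y ⟨⟨hyB, _⟩, _, hyG⟩
    exact hyG (mem_iUnion.2 ⟨⟨B, hB𝓑⟩, hyB⟩)
  refine (RM_union h1 (RM_of_ND h2)).mono fun x hx => ?_
  by_cases hxG : x ∈ G
  · obtain ⟨B, hB⟩ := mem_iUnion.1 hxG
    exact Or.inl (mem_iUnion.2 ⟨B, hx.1, hB⟩)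
  · exact Or.inr ⟨hx.1, hxG⟩

/-- relatively nowhere dense sets are nowhere dense in `ℝ` -/
theorem ND.univ {X T : Set ℝ} (h : ND X T) : ND Set.univ (T ∩ X) := by
  intro V hV hVu
  by_cases hVX : (V ∩ X).Nonempty
  · obtain ⟨V', h1, h2, ⟨x, hx⟩, h4⟩ := h V hV hVX
    refine ⟨V', h1, h2, ⟨x, hx.1, mem_univ _⟩, ?_⟩
    rw [eq_empty_iff_forall_notMem] at h4 ⊢
    exact fun y hy => h4 y ⟨⟨hy.1.1, hy.2.2⟩, hy.2.1⟩
  · refine ⟨V, hV, Subset.rfl, hVu, ?_⟩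
    rw [eq_empty_iff_forall_notMem]
    exact fun y hy => hVX ⟨y, hy.1.1, hy.2.2⟩

theorem RM.univ {X T : Set ℝ} (h : RM X T) : RM Set.univ (T ∩ X) := by
  obtain ⟨f, h1, h2⟩ := h
  exact ⟨fun n => f n ∩ X, fun n => (h1 n).univ, fun x hx => by
    obtain ⟨n, hn⟩ := mem_iUnion.1 (h2 hx.1)
    exact mem_iUnion.2 ⟨n, hn, hx.1.2⟩⟩

/-- the converse, if the interior of `X` is dense in `X` -/
theorem ND.of_univ {X T : Set ℝ} (hX : ∀ V, IsOpen V → (V ∩ X).Nonempty → (V ∩ interior X).Nonempty)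
    (h : ND Set.univ T) : ND X T := by
  intro V hV hVX
  obtain ⟨x, hx⟩ := hX V hV hVX
  obtain ⟨V', h1, h2, ⟨y, hy⟩, h4⟩ := h (V ∩ interior X) (hV.inter isOpen_interior) ⟨x, hx, mem_univ _⟩
  refine ⟨V', h1, h2.trans inter_subset_left, ⟨y, hy.1, interior_subset (h2 hy.1).2⟩, ?_⟩
  rw [eq_empty_iff_forall_notMem] at h4 ⊢
  exact fun z hz => h4 z ⟨⟨hz.1.1, mem_univ _⟩, hz.2⟩

theorem RM.of_univ {X T : Set ℝ} (hX : ∀ V, IsOpen V → (V ∩ X).Nonempty → (V ∩ interior X).Nonempty)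
    (h : RM Set.univ T) : RM X T := by
  obtain ⟨f, h1, h2⟩ := h
  exact ⟨f, fun n => (h1 n).of_univ hX, fun x hx => h2 ⟨hx.1, mem_univ _⟩⟩

/-- translations of `ℝ` -/
theorem ND.translate {X T : Set ℝ} (h : ND X T) (t : ℝ) :
    ND ((fun x => x + t) ⁻¹' X) ((fun x => x + t) ⁻¹' T) := by
  intro V hV ⟨x, hx⟩
  have hc : Continuous fun x : ℝ => x + t := by fun_prop
  have hc' : Continuous fun x : ℝ => x - t := by fun_prop
  obtain ⟨V', h1, h2, ⟨y, hy⟩, h4⟩ := h ((fun x => x - t) ⁻¹' V) (hV.preimage hc')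
    ⟨x + t, by simpa using hx.1, hx.2⟩
  refine ⟨(fun x => x + t) ⁻¹' V', h1.preimage hc, ?_, ⟨y - t, by simpa using hy.1,
    by simpa using hy.2⟩, ?_⟩
  · intro z hz
    have := h2 hz
    simpa using this
  · rw [eq_empty_iff_forall_notMem] at h4 ⊢
    exact fun z hz => h4 (z + t) hz

theorem RM.translate {X T : Set ℝ} (h : RM X T) (t : ℝ) :
    RM ((fun x => x + t) ⁻¹' X) ((fun x => x + t) ⁻¹' T) := by
  obtain ⟨f, h1, h2⟩ := h
  refine ⟨fun n => (fun x => x + t) ⁻¹' (f n), fun n => (h1 n).translate t, fun x hx => ?_⟩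
  obtain ⟨n, hn⟩ := mem_iUnion.1 (h2 (show x + t ∈ T ∩ X from hx))
  exact mem_iUnion.2 ⟨n, hn⟩

/-- comparison with meager sets of the subspace -/
theorem ND_iff {X : Set ℝ} (t : Set X) : ND X (Subtype.val '' t) ↔ IsNowhereDense t := by
  constructor
  · intro h
    rw [IsNowhereDense, eq_empty_iff_forall_notMem]
    intro x hx
    obtain ⟨U, hU, hUx⟩ : ∃ U : Set ℝ, IsOpen U ∧ Subtype.val ⁻¹' U = interior (closure t) :=
      isOpen_induced_iff.1 isOpen_interior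
    obtain ⟨V', h1, h2, ⟨y, hy⟩, h4⟩ := h U hU ⟨x, by
      have : x ∈ Subtype.val ⁻¹' U := by rw [hUx]; exact hx
      exact this, x.2⟩
    have hy' : (⟨y, hy.2⟩ : X) ∈ closure t := by
      have h5 : (⟨y, hy.2⟩ : X) ∈ Subtype.val ⁻¹' U := h2 hy.1
      rw [hUx] at h5
      exact interior_subset h5
    rw [mem_closure_iff] at hy'
    obtain ⟨z, hz1, hz2⟩ := hy' (Subtype.val ⁻¹' V') (h1.preimage continuous_subtype_val) hy.1
    rw [eq_empty_iff_forall_notMem] at h4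
    exact h4 z ⟨⟨hz1, z.2⟩, mem_image_of_mem _ hz2⟩
  · intro h V hV ⟨x, hx⟩
    have hne : ¬ (Subtype.val ⁻¹' V ⊆ closure t) := by
      intro hsub
      have h1 : (⟨x, hx.2⟩ : X) ∈ interior (closure t) :=
        mem_interior.2 ⟨_, hsub, hV.preimage continuous_subtype_val, hx.1⟩
      rw [IsNowhereDense] at h
      rw [h] at h1
      exact h1
    obtain ⟨y, hy1, hy2⟩ := not_subset.1 hne
    obtain ⟨U, hU, hUx⟩ : ∃ U : Set ℝ, IsOpen U ∧ Subtype.val ⁻¹' U = (closure t)ᶜ :=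
      isOpen_induced_iff.1 isClosed_closure.isOpen_compl
    refine ⟨V ∩ U, hV.inter hU, inter_subset_left, ⟨y, ⟨hy1, ?_⟩, y.2⟩, ?_⟩
    · have : y ∈ Subtype.val ⁻¹' U := by rw [hUx]; exact hy2
      exact this
    · rw [eq_empty_iff_forall_notMem]
      rintro z ⟨⟨⟨_, hzU⟩, hzX⟩, w, hw, rfl⟩
      have : w ∈ Subtype.val ⁻¹' U := hzU
      rw [hUx] at this
      exact this (subset_closure hw)

theorem RM_iff {X : Set ℝ} (t : Set X) : RM X (Subtype.val '' t) ↔ IsMeagre t := by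
  rw [isMeagre_iff_countable_union_isNowhereDense]
  constructor
  · rintro ⟨f, h1, h2⟩
    refine ⟨range fun n => Subtype.val ⁻¹' (f n), ?_, countable_range _, ?_⟩
    · rintro _ ⟨n, rfl⟩
      rw [← ND_iff]
      refine (h1 n).mono ?_
      rintro _ ⟨y, hy, rfl⟩
      exact hy
    · intro x hx
      obtain ⟨n, hn⟩ := mem_iUnion.1 (h2 ⟨mem_image_of_mem _ hx, x.2⟩)
      exact ⟨_, ⟨n, rfl⟩, hn⟩
  · rintro ⟨S, hS1, hS2, hS3⟩
    have := hS2.to_subtype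
    have h1 : RM X (⋃ s : S, Subtype.val '' (s : Set X)) :=
      RM_iUnion fun s => RM_of_ND ((ND_iff _).2 (hS1 _ s.2))
    refine h1.mono ?_
    rintro _ ⟨⟨y, hy, rfl⟩, _⟩
    obtain ⟨s, hs, hys⟩ := hS3 hy
    exact mem_iUnion.2 ⟨⟨s, hs⟩, y, hys, rfl⟩

/-- a non-empty open set is not meager -/
theorem not_RM_open {V : Set ℝ} (hV : IsOpen V) (hne : V.Nonempty) : ¬ RM Set.univ V := by
  intro h
  have h1 : IsMeagre (Subtype.val ⁻¹' V : Set (Set.univ : Set ℝ)) := by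
    rw [← RM_iff]
    refine h.mono ?_
    rintro _ ⟨⟨y, hy, rfl⟩, _⟩
    exact hy
  have h2 : IsOpen (Subtype.val ⁻¹' V : Set (Set.univ : Set ℝ)) := hV.preimage continuous_subtype_val
  have : BaireSpace (Set.univ : Set ℝ) := isOpen_univ.baireSpace
  obtain ⟨x, hx⟩ := hne
  exact not_isMeagre_of_isOpen h2 ⟨⟨x, mem_univ _⟩, hx⟩ h1

end Pool.Agent.V1197.AS
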