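import Pool.Agent.V1197.AS.RM

set_option autoImplicit false

/-! # Achievement sets -/

namespace Pool.Agent.V1197.AS

open Set Filter Topology

/-- partial sums of the subseries with index set `A` -/
noncomputable def Ps (x : ℕ → ℝ) (A : Set ℕ) (n : ℕ) : ℝ := ∑ i ∈ Finset.range n, A.indicator x i

/-- the subseries with index set `A` converges to `s` -/
def SubSum (x : ℕ → ℝ) (A : Set ℕ) (s : ℝ) : Prop := Tendsto (Ps x A) atTop (𝓝 s)

/-- all the sums of subseries with index set in `J` -/
def AS (J : Set (Set ℕ)) (x : ℕ → ℝ) : Set ℝ := {s | ∃ A ∈ J, SubSum x A s}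

/-- invariance under finite changes -/
def FinInv (J : Set (Set ℕ)) : Prop :=
  ∀ A ∈ J, ∀ B : Set ℕ, (∃ N, ∀ i, N ≤ i → (i ∈ A ↔ i ∈ B)) → B ∈ J

/-- non-meagerness of `S` somewhere implies non-meagerness everywhere -/
def EW (X S : Set ℝ) : Prop := ∀ V, IsOpen V → (V ∩ X).Nonempty → RM X (S ∩ V) → RM X S

theorem Ps_succ (x : ℕ → ℝ) (A : Set ℕ) (n : ℕ) :
    Ps x A (n + 1) = Ps x A n + A.indicator x n := Finset.sum_range_succ _ _

theorem AS_subset (J : Set (Set ℕ)) (x : ℕ → ℝ) : AS J x ⊆ AS univ x := by
  rintro s ⟨A, _, h⟩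
  exact ⟨A, mem_univ _, h⟩

/-- change of the first `N` terms -/
theorem SubSum.modify {x : ℕ → ℝ} {A : Set ℕ} {s : ℝ} (h : SubSum x A s) (C : Set ℕ) (N : ℕ) :
    SubSum x {i | (i < N ∧ i ∈ C) ∨ (N ≤ i ∧ i ∈ A)} (s + (Ps x C N - Ps x A N)) := by
  set B : Set ℕ := {i | (i < N ∧ i ∈ C) ∨ (N ≤ i ∧ i ∈ A)} with hB
  have h1 : ∀ n, N ≤ n → Ps x B n = Ps x A n + (Ps x C N - Ps x A N) := by
    intro n hn
    induction n, hn using Nat.le_induction with
    | base =>
      have : Ps x B N = Ps x C N := by
        refine Finset.sum_congr rfl fun i hi => ?_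
        have hi' : i < N := Finset.mem_range.1 hi
        by_cases hC : i ∈ C
        · rw [indicator_of_mem hC, indicator_of_mem (show i ∈ B from Or.inl ⟨hi', hC⟩)]
        · rw [indicator_of_notMem hC, indicator_of_notMem]
          rintro (h2 | h2)
          · exact hC h2.2
          · omega
      rw [this]
      ring
    | succ n hn ih =>
      rw [Ps_succ, Ps_succ, ih]
      have : B.indicator x n = A.indicator x n := by
        by_cases hA : n ∈ A
        · rw [indicator_of_mem hA, indicator_of_mem (show n ∈ B from Or.inr ⟨hn, hA⟩)]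
        · rw [indicator_of_notMem hA, indicator_of_notMem]
          rintro (h2 | h2)
          · omega
          · exact hA h2.2
      rw [this]
      ring
  refine (Tendsto.add_const _ h).congr' ?_
  filter_upwards [eventually_ge_atTop N] with n hn
  exact (h1 n hn).symm

/-- the countable set of shifts -/
noncomputable def shift (x : ℕ → ℝ) (p : ℕ × Finset ℕ × Finset ℕ) : ℝ :=
  Ps x (p.2.1 : Set ℕ) p.1 - Ps x (p.2.2 : Set ℕ) p.1

theorem Ps_finset (x : ℕ → ℝ) (A : Set ℕ) (N : ℕ) : ∃ b : Finset ℕ, Ps x (b : Set ℕ) N = Ps x A N := by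
  classical
  refine ⟨(Finset.range N).filter (· ∈ A), Finset.sum_congr rfl fun i hi => ?_⟩
  by_cases hA : i ∈ A
  · rw [indicator_of_mem hA, indicator_of_mem]
    simp only [Finset.coe_filter, mem_ofPred_eq]
    exact ⟨hi, hA⟩
  · rw [indicator_of_notMem hA, indicator_of_notMem]
    simp only [Finset.coe_filter, mem_ofPred_eq]
    exact fun h => hA h.2

/-- every sum can be moved into any open set which contains some sum, by a shift from a countable
set -/
theorem exists_shift {J : Set (Set ℕ)} (hJ : FinInv J) {x : ℕ → ℝ} {V : Set ℝ} (hV : IsOpen V)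
    (hne : (V ∩ AS univ x).Nonempty) {s : ℝ} (hs : s ∈ AS J x) :
    ∃ p, s + shift x p ∈ AS J x ∩ V := by
  obtain ⟨v, hv, D, -, hD⟩ := hne
  obtain ⟨A, hA, hAs⟩ := hs
  have h1 : Tendsto (fun N => s + (Ps x D N - Ps x A N)) atTop (𝓝 v) := by
    have := (hD.sub hAs).const_add s
    have h2 : s + (v - s) = v := by ring
    rwa [h2] at this
  obtain ⟨N, hN⟩ := (h1.eventually (hV.mem_nhds hv)).exists
  obtain ⟨d, hd⟩ := Ps_finset x D N
  obtain ⟨a, ha⟩ := Ps_finset x A N
  refine ⟨(N, d, a), ?_⟩
  have h3 : shift x (N, d, a) = Ps x D N - Ps x A N := by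
    simp only [shift, hd, ha]
  rw [h3]
  refine ⟨⟨_, ?_, hAs.modify D N⟩, hN⟩
  refine hJ A hA _ ⟨N, fun i hi => ?_⟩
  constructor
  · intro h
    exact Or.inr ⟨hi, h⟩
  · rintro (h | h)
    · omega
    · exact h.2

theorem RM_of_inter {J : Set (Set ℕ)} (hJ : FinInv J) {x : ℕ → ℝ} {V : Set ℝ} (hV : IsOpen V)
    (hne : (V ∩ AS univ x).Nonempty) (h : RM univ (AS J x ∩ V)) : RM univ (AS J x) := by
  have h1 : RM univ (⋃ p, (fun s => s + shift x p) ⁻¹' (AS J x ∩ V)) := by
    refine RM_iUnion fun p => ?_
    have := h.translate (shift x p)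
    rwa [preimage_univ] at this
  refine h1.mono fun s hs => ?_
  obtain ⟨p, hp⟩ := exists_shift hJ hV hne hs.1
  exact mem_iUnion.2 ⟨p, hp⟩

/-- the case where the interior of the achievement set is dense in it -/
theorem EW_of_dense {J : Set (Set ℕ)} (hJ : FinInv J) {x : ℕ → ℝ}
    (hX : ∀ V, IsOpen V → (V ∩ AS univ x).Nonempty → (V ∩ interior (AS univ x)).Nonempty) :
    EW (AS univ x) (AS J x) := by
  intro V hV hne h
  refine RM.of_univ hX (RM_of_inter hJ hV hne ?_)
  refine h.univ.mono fun s hs => ⟨hs.1, AS_subset J x hs.1.1⟩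

theorem finInv_univ : FinInv univ := fun _ _ _ _ => mem_univ _

/-- If the achievement set is closed and has an interior point, its interior is dense in it. -/
theorem dense_interior {x : ℕ → ℝ} (hcl : IsClosed (AS univ x))
    (hint : (interior (AS univ x)).Nonempty) :
    ∀ V, IsOpen V → (V ∩ AS univ x).Nonempty → (V ∩ interior (AS univ x)).Nonempty := by
  intro V hV ⟨v, hv⟩
  by_contra hcon
  obtain ⟨ε, hε, hεV⟩ := Metric.isOpen_iff.1 hV v hv.1
  set K : Set ℝ := Metric.closedBall v (ε / 2) ∩ AS univ x with hK
  have hKV : K ⊆ V := fun z hz => hεV (by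
    have := hz.1
    rw [Metric.mem_closedBall] at this
    rw [Metric.mem_ball]
    linarith)
  have hKcl : IsClosed K := Metric.isClosed_closedBall.inter hcl
  have hKnd : ND univ K := by
    intro W hW ⟨w, hw⟩
    refine ⟨W ∩ Kᶜ, hW.inter hKcl.isOpen_compl, inter_subset_left, ?_, ?_⟩
    · by_contra hemp
      apply hcon
      have hWK : W ⊆ K := by
        intro z hz
        by_contra hzK
        exact hemp ⟨z, ⟨hz, hzK⟩, mem_univ _⟩
      exact ⟨w, hKV (hWK hw.1), mem_interior.2 ⟨W, fun z hz => (hWK hz).2, hW, hw.1⟩⟩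
    · rw [eq_empty_iff_forall_notMem]
      exact fun z hz => hz.1.1.2 hz.2
  have h1 : RM univ (AS univ x ∩ Metric.ball v (ε / 2)) := by
    refine (RM_of_ND hKnd).mono fun z hz => ?_
    exact ⟨Metric.ball_subset_closedBall hz.1.2, hz.1.1⟩
  have h2 := RM_of_inter finInv_univ Metric.isOpen_ball
    ⟨v, Metric.mem_ball_self (by positivity), hv.2⟩ h1
  exact not_RM_open isOpen_interior hint (h2.mono fun z hz => interior_subset hz.1)

/-! ### Conditionally convergent series -/

section greedy

variable (z : ℕ → ℝ) (v : ℝ)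

/-- the partial sums of the greedy algorithm -/
noncomputable def gr : ℕ → ℝ
  | 0 => 0
  | n + 1 => if gr n ≤ v then gr n + max (z n) 0 else gr n + min (z n) 0

/-- the index set of the greedy algorithm -/
def grSet : Set ℕ := {n | (gr z v n ≤ v ∧ 0 ≤ z n) ∨ (v < gr z v n ∧ z n < 0)}

theorem Ps_grSet (n : ℕ) : Ps z (grSet z v) n = gr z v n := by
  induction n with
  | zero => simp [Ps, gr]
  | succ n ih =>
    rw [Ps_succ, ih, gr]
    split_ifs with h
    · by_cases hz : 0 ≤ z n
      · rw [indicator_of_mem (show n ∈ grSet z v from Or.inl ⟨h, hz⟩), max_eq_left hz]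
      · rw [indicator_of_notMem, max_eq_right (by linarith)]
        rintro (h1 | h1)
        · exact hz h1.2
        · linarith [h1.1]
    · push Not at h
      by_cases hz : z n < 0
      · rw [indicator_of_mem (show n ∈ grSet z v from Or.inr ⟨h, hz⟩), min_eq_left hz.le]
      · push Not at hz
        rw [indicator_of_notMem, min_eq_right hz]
        rintro (h1 | h1)
        · linarith [h1.1]
        · linarith [h1.2]

theorem tendsto_gr {L : ℝ} (hL : Tendsto (fun n => ∑ i ∈ Finset.range n, z i) atTop (𝓝 L))
    (hns : ¬ Summable fun i => |z i|) : Tendsto (gr z v) atTop (𝓝 v) := by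
  -- the terms tend to `0`
  have hz0 : Tendsto z atTop (𝓝 0) := by
    have h1 : Tendsto (fun n => ∑ i ∈ Finset.range (n + 1), z i) atTop (𝓝 L) :=
      (tendsto_add_atTop_iff_nat 1).2 hL
    have h2 := h1.sub hL
    rw [sub_self] at h2
    refine h2.congr fun n => ?_
    rw [Finset.sum_range_succ]
    ring
  obtain ⟨M, hM⟩ : ∃ M, ∀ n, |∑ i ∈ Finset.range n, z i| ≤ M := by
    obtain ⟨M, hM⟩ := (Metric.isBounded_range_of_tendsto _ hL).exists_norm_le
    exact ⟨M, fun n => hM _ (mem_range_self n)⟩
  -- unboundedness of the sums of the positive and of the negative parts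
  have hpos : ∀ C, ∃ n, C < ∑ i ∈ Finset.range n, max (z i) 0 := by
    by_contra hcon
    push Not at hcon
    obtain ⟨C, hC⟩ := hcon
    apply hns
    refine summable_of_sum_range_le (c := 2 * C + M) (fun _ => abs_nonneg _) fun n => ?_
    have h3 : ∑ i ∈ Finset.range n, |z i| = 2 * (∑ i ∈ Finset.range n, max (z i) 0)
        - ∑ i ∈ Finset.range n, z i := by
      rw [Finset.mul_sum, ← Finset.sum_sub_distrib]
      refine Finset.sum_congr rfl fun i _ => ?_
      rcases le_total 0 (z i) with h | h
      · rw [abs_of_nonneg h, max_eq_left h]; ring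
      · rw [abs_of_nonpos h, max_eq_right h]; ring
    rw [h3]
    have := hC n
    have := (abs_le.1 (hM n)).1
    linarith
  have hneg : ∀ C, ∃ n, ∑ i ∈ Finset.range n, min (z i) 0 < C := by
    intro C
    obtain ⟨n, hn⟩ := hpos (M - C)
    refine ⟨n, ?_⟩
    have h4 : ∑ i ∈ Finset.range n, min (z i) 0 = (∑ i ∈ Finset.range n, z i)
        - ∑ i ∈ Finset.range n, max (z i) 0 := by
      rw [← Finset.sum_sub_distrib]
      refine Finset.sum_congr rfl fun i _ => ?_
      have := min_add_max (z i) 0
      linarith
    rw [h4]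
    have := (abs_le.1 (hM n)).2
    linarith
  rw [Metric.tendsto_atTop]
  intro ε hε
  obtain ⟨N, hN⟩ := (Metric.tendsto_atTop.1 hz0) (ε / 2) (by positivity)
  have hN' : ∀ n, N ≤ n → |z n| < ε / 2 := fun n hn => by
    have := hN n hn
    rwa [Real.dist_eq, sub_zero] at this
  -- once close, always close
  have hkeep : ∀ n, N ≤ n → |gr z v n - v| ≤ ε / 2 → |gr z v (n + 1) - v| ≤ ε / 2 := by
    intro n hn h
    have h5 := abs_lt.1 (hN' n hn)
    have h6 := abs_le.1 h
    rw [abs_le, gr]
    split_ifs with h7
    · have h8 : max (z n) 0 ≤ ε / 2 := max_le (by linarith) (by positivity)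
      have h9 : 0 ≤ max (z n) 0 := le_max_right _ _
      constructor <;> linarith
    · push Not at h7
      have h8 : -(ε / 2) ≤ min (z n) 0 := le_min (by linarith) (by linarith)
      have h9 : min (z n) 0 ≤ 0 := min_le_right _ _
      constructor <;> linarith
  -- at some time close
  have hex : ∃ n, N ≤ n ∧ |gr z v n - v| ≤ ε / 2 := by
    by_contra hcon
    push Not at hcon
    rcases lt_or_ge (gr z v N) v with h | h
    · have hlow : ∀ n, N ≤ n → gr z v n < v - ε / 2 := by
        intro n hn
        induction n, hn using Nat.le_induction with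
        | base =>
          have := hcon N le_rfl
          rw [lt_abs] at this
          rcases this with h1 | h1 <;> linarith
        | succ n hn ih =>
          have h5 := abs_lt.1 (hN' n hn)
          have h10 := hcon (n + 1) (by omega)
          have h11 : gr z v (n + 1) < v := by
            rw [gr, if_pos (by linarith)]
            have h8 : max (z n) 0 ≤ ε / 2 := max_le (by linarith) (by positivity)
            linarith
          rw [lt_abs] at h10
          rcases h10 with h1 | h1 <;> linarith
      have hform : ∀ n, N ≤ n → gr z v n = gr z v N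
          + ((∑ i ∈ Finset.range n, max (z i) 0) - ∑ i ∈ Finset.range N, max (z i) 0) := by
        intro n hn
        induction n, hn using Nat.le_induction with
        | base => ring
        | succ n hn ih =>
          have h12 := hlow n hn
          rw [gr, if_pos (by linarith), Finset.sum_range_succ, ih]
          ring
      obtain ⟨n, hn⟩ := hpos (v - gr z v N + ∑ i ∈ Finset.range N, max (z i) 0)
      rcases le_total N n with hNn | hNn
      · have h13 := hform n hNn
        have h14 := hlow n hNn
        linarith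
      · have h15 : ∑ i ∈ Finset.range n, max (z i) 0 ≤ ∑ i ∈ Finset.range N, max (z i) 0 :=
          Finset.sum_le_sum_of_subset_of_nonneg (Finset.range_mono hNn)
            fun _ _ _ => le_max_right _ _
        linarith
    · have hup : ∀ n, N ≤ n → v + ε / 2 < gr z v n := by
        intro n hn
        induction n, hn using Nat.le_induction with
        | base =>
          have := hcon N le_rfl
          rw [lt_abs] at this
          rcases this with h1 | h1 <;> linarith
        | succ n hn ih =>
          have h5 := abs_lt.1 (hN' n hn)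
          have h10 := hcon (n + 1) (by omega)
          have h11 : v < gr z v (n + 1) := by
            rw [gr, if_neg (by linarith)]
            have h8 : -(ε / 2) < min (z n) 0 := lt_min (by linarith) (by linarith)
            linarith
          rw [lt_abs] at h10
          rcases h10 with h1 | h1 <;> linarith
      have hform : ∀ n, N ≤ n → gr z v n = gr z v N
          + ((∑ i ∈ Finset.range n, min (z i) 0) - ∑ i ∈ Finset.range N, min (z i) 0) := by
        intro n hn
        induction n, hn using Nat.le_induction with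
        | base => ring
        | succ n hn ih =>
          have h12 := hup n hn
          rw [gr, if_neg (by linarith), Finset.sum_range_succ, ih]
          ring
      obtain ⟨n, hn⟩ := hneg (v - gr z v N + ∑ i ∈ Finset.range N, min (z i) 0)
      rcases le_total N n with hNn | hNn
      · have h13 := hform n hNn
        have h14 := hup n hNn
        linarith
      · have h15 : ∑ i ∈ Finset.range N, min (z i) 0 ≤ ∑ i ∈ Finset.range n, min (z i) 0 := by
          have h16 : ∑ i ∈ Finset.range n, -(min (z i) 0) ≤ ∑ i ∈ Finset.range N, -(min (z i) 0) :=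
            Finset.sum_le_sum_of_subset_of_nonneg (Finset.range_mono hNn)
              fun i _ _ => by
                have := min_le_right (z i) 0
                linarith
          rw [Finset.sum_neg_distrib, Finset.sum_neg_distrib] at h16
          linarith
        linarith
  obtain ⟨n₀, hn₀, h₀⟩ := hex
  refine ⟨n₀, fun n hn => ?_⟩
  have : |gr z v n - v| ≤ ε / 2 := by
    induction n, hn using Nat.le_induction with
    | base => exact h₀
    | succ n hn ih => exact hkeep n (hn₀.trans hn) ih
  rw [Real.dist_eq]
  linarith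

end greedy

/-- all the reals are sums of subseries of a conditionally convergent series -/
theorem AS_univ_of_cond {x : ℕ → ℝ} {L : ℝ}
    (hL : Tendsto (fun n => ∑ i ∈ Finset.range n, x i) atTop (𝓝 L))
    (hns : ¬ Summable fun i => |x i|) : AS univ x = univ := by
  rw [eq_univ_iff_forall]
  intro v
  refine ⟨grSet x v, mem_univ _, ?_⟩
  refine (tendsto_gr x v hL hns).congr fun n => ?_
  rw [Ps_grSet]

theorem EW_cond {J : Set (Set ℕ)} (hJ : FinInv J) {x : ℕ → ℝ} {L : ℝ}
    (hL : Tendsto (fun n => ∑ i ∈ Finset.range n, x i) atTop (𝓝 L))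
    (hns : ¬ Summable fun i => |x i|) : EW (AS univ x) (AS J x) := by
  refine EW_of_dense hJ fun V _ hne => ?_
  rw [AS_univ_of_cond hL hns] at hne ⊢
  rw [interior_univ]
  exact hne

end Pool.Agent.V1197.AS
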